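import Pool.Agent.Helper34.FQ.DIST

/-!
# Fractional polychromatic colourings from a finite two-colour threshold

If `m_2(F) ≤ m` then `m*_k(F) ≤ C k` for all `k`, where `m*_k` is the threshold for fractional
colourings with `k` colours and `C` depends only on `m`.
-/

namespace Pool.Agent.Results.MP_08bd45_co.Fractional

open Finset

/-- `PolyAt F k t`: every finite point set `P` has a colouring with `k` colours in which every
member of `F` with at least `t` points of `P` contains points of `P` of all `k` colours. -/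
def PolyAt {d : ℕ} (F : Set (Set (EuclideanSpace ℝ (Fin d)))) (k t : ℕ) : Prop :=
  ∀ P : Finset (EuclideanSpace ℝ (Fin d)), ∃ c : EuclideanSpace ℝ (Fin d) → Fin k,
    ∀ S ∈ F, t ≤ ((P : Set (EuclideanSpace ℝ (Fin d))) ∩ S).ncard →
      ∀ i : Fin k, ∃ p ∈ P, p ∈ S ∧ c p = i

/-- `m_k(F)`: the least `t` with `PolyAt F k t`, and infinity if there is none. -/
noncomputable def mk {d : ℕ} (F : Set (Set (EuclideanSpace ℝ (Fin d)))) (k : ℕ) : ℕ∞ :=
  sInf {t : ℕ∞ | ∃ n : ℕ, t = (n : ℕ∞) ∧ PolyAt F k n}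

/-- `FracAt F k t`: every finite point set `P` has a fractional colouring with `k` colours in which
every member of `F` with at least `t` points of `P` contains points of all colours. That is, the
subsets of `P` carry weights `v T ≥ 0` of total `k`, every point lies in sets of total weight at
most one, and every set `T` of positive weight meets every member of `F` which has at least `t`
points of `P`. (For a colouring take `v = 1` on the colour classes.) -/
def FracAt {d : ℕ} (F : Set (Set (EuclideanSpace ℝ (Fin d)))) (k t : ℕ) : Prop :=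
  ∀ P : Finset (EuclideanSpace ℝ (Fin d)), ∃ v : Finset (EuclideanSpace ℝ (Fin d)) → ℝ,
    (∀ T, 0 ≤ v T) ∧ ∑ T ∈ P.powerset, v T = k ∧
    (∀ p ∈ P, ∑ T ∈ P.powerset, Set.indicator {T' | p ∈ T'} v T ≤ 1) ∧
    ∀ T ∈ P.powerset, v T ≠ 0 → ∀ S ∈ F,
      t ≤ ((P : Set (EuclideanSpace ℝ (Fin d))) ∩ S).ncard → ∃ p ∈ T, p ∈ S

/-- `m*_k(F)`: the least `t` with `FracAt F k t`, and infinity if there is none. -/
noncomputable def mkFrac {d : ℕ} (F : Set (Set (EuclideanSpace ℝ (Fin d)))) (k : ℕ) : ℕ∞ :=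
  sInf {t : ℕ∞ | ∃ n : ℕ, t = (n : ℕ∞) ∧ FracAt F k n}

theorem polyAt_mono {d : ℕ} {F : Set (Set (EuclideanSpace ℝ (Fin d)))} {k t t' : ℕ}
    (h : PolyAt F k t) (ht : t ≤ t') : PolyAt F k t' := by
  intro P
  obtain ⟨c, hc⟩ := h P
  exact ⟨c, fun S hS hn => hc S hS (ht.trans hn)⟩

theorem polyAt_of_mk_le {d : ℕ} {F : Set (Set (EuclideanSpace ℝ (Fin d)))} {k m : ℕ}
    (h : mk F k ≤ (m : ℕ∞)) : PolyAt F k m := by
  by_contra hcon
  have h1 : ((m + 1 : ℕ) : ℕ∞) ≤ mk F k := by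
    refine le_sInf ?_
    rintro t ⟨n, rfl, hn⟩
    have h2 : m + 1 ≤ n := by
      by_contra h3
      exact hcon (polyAt_mono hn (by omega))
    exact_mod_cast h2
  have h4 : ((m + 1 : ℕ) : ℕ∞) ≤ (m : ℕ∞) := h1.trans h
  have h5 : m + 1 ≤ m := by exact_mod_cast h4
  omega

/-- The weighted form. -/
theorem weighted (m : ℕ) : ∃ C : ℝ, 0 < C ∧ ∀ (d : ℕ)
    (F : Set (Set (EuclideanSpace ℝ (Fin d)))), mk F 2 ≤ (m : ℕ∞) →
    ∀ (P : Finset (EuclideanSpace ℝ (Fin d))) (w : EuclideanSpace ℝ (Fin d) → ℝ) (t : ℝ),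
      (∀ p ∈ P, 0 ≤ w p) → 0 < t →
      ∃ v : Finset (EuclideanSpace ℝ (Fin d)) → ℝ, (∀ T, 0 ≤ v T) ∧
        ∑ T ∈ P.powerset, v T = 1 ∧
        (∀ p ∈ P, t * ∑ T ∈ P.powerset, Set.indicator {T' | p ∈ T'} v T ≤ C * w p) ∧
        ∀ T ∈ P.powerset, v T ≠ 0 → ∀ S ∈ F, t ≤ ∑ p ∈ P, S.indicator w p →
          ∃ p ∈ T, p ∈ S := by
  classical
  obtain ⟨C, hC0, hC⟩ := Pool.Agent.Helper34.FQ.frac (max m 1) (le_max_right _ _)
  refine ⟨C, hC0, ?_⟩
  intro d F hF P w t hw ht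
  have hpoly : PolyAt F 2 (max m 1) := polyAt_mono (polyAt_of_mk_le hF) (le_max_left _ _)
  set H : Finset (Finset (EuclideanSpace ℝ (Fin d))) :=
    P.powerset.filter (fun E => ∃ S ∈ F, E = P.filter (fun p => p ∈ S)) with hH
  have hgood : Pool.Agent.Helper34.PN.Good P H (max m 1) := by
    intro Y hY
    obtain ⟨c, hc⟩ := hpoly Y
    refine ⟨Y.filter (fun p => c p = 0), filter_subset _ _, ?_⟩
    intro E hE hcard
    obtain ⟨hEP, S, hS, rfl⟩ := mem_filter.1 hE
    have h1 : (((P.filter (fun p => p ∈ S)) ∩ Y : Finset (EuclideanSpace ℝ (Fin d))) :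
        Set (EuclideanSpace ℝ (Fin d))) = (Y : Set (EuclideanSpace ℝ (Fin d))) ∩ S := by
      ext p
      simp only [coe_inter, coe_filter, Set.mem_inter_iff, Set.mem_ofPred_eq, mem_coe]
      constructor
      · rintro ⟨⟨_, h2⟩, h3⟩
        exact ⟨h3, h2⟩
      · rintro ⟨h3, h2⟩
        exact ⟨⟨hY h3, h2⟩, h3⟩
    have h2 : max m 1 ≤ ((Y : Set (EuclideanSpace ℝ (Fin d))) ∩ S).ncard := by
      rw [← h1, Set.ncard_coe_finset]
      exact hcard
    obtain ⟨p0, hp0Y, hp0S, hp0c⟩ := hc S hS h2 0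
    obtain ⟨p1, hp1Y, hp1S, hp1c⟩ := hc S hS h2 1
    constructor
    · exact ⟨p0, mem_inter.2 ⟨mem_filter.2 ⟨hY hp0Y, hp0S⟩, mem_filter.2 ⟨hp0Y, hp0c⟩⟩⟩
    · refine ⟨p1, mem_inter.2 ⟨mem_filter.2 ⟨hY hp1Y, hp1S⟩, mem_sdiff.2 ⟨hp1Y, ?_⟩⟩⟩
      intro h3
      have h4 := (mem_filter.1 h3).2
      rw [hp1c] at h4
      exact absurd h4 (by decide)
  obtain ⟨v, hv0, hv1, hvT, hvp⟩ := hC _ P H w t hgood hw ht
  refine ⟨v, hv0, hv1, ?_, ?_⟩
  · intro p hp
    have h1 : ∑ T ∈ P.powerset, Set.indicator {T' | p ∈ T'} v T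
        = ∑ T ∈ P.powerset.filter (fun T => p ∈ T), v T := by
      rw [sum_filter]
      refine sum_congr rfl fun T _ => ?_
      rw [Set.indicator_apply]
      rfl
    rw [h1]
    exact hvp p hp
  · intro T hT hvT0 S hS hSw
    have hE : P.filter (fun p => p ∈ S) ∈ H :=
      mem_filter.2 ⟨mem_powerset.2 (filter_subset _ _), S, hS, rfl⟩
    have h1 : t ≤ ∑ x ∈ P.filter (fun x => x ∈ P.filter (fun p => p ∈ S)), w x := by
      refine hSw.trans (le_of_eq ?_)
      have h2 : P.filter (fun x => x ∈ P.filter (fun p => p ∈ S)) = P.filter (fun p => p ∈ S) := by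
        ext p
        simp only [mem_filter]
        tauto
      rw [h2, sum_filter]
      exact sum_congr rfl fun p _ => by rw [Set.indicator_apply]
    obtain ⟨p, hp⟩ := hvT T hT hvT0 _ hE h1
    have hp' := mem_inter.1 hp
    exact ⟨p, hp'.2, (mem_filter.1 hp'.1).2⟩

/-- For every `m` there is a constant `C`, depending only on `m`, such that every family `F` of
sets in any `ℝ^d` with `m_2(F) ≤ m` satisfies `m*_k(F) ≤ C k` for all `k ≥ 1`, and more generally,
for every finite point set `P`, nonnegative weight `w` on `P` and threshold `t > 0` there is a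
probability distribution `v` on the subsets `T` of `P` which meet every member of `F` of weight at
least `t`, such that every point `p` of `P` lies in `T` with probability at most `C w(p) / t`. -/
theorem result : ∀ m : ℕ, ∃ C : ℕ, 1 ≤ C ∧ ∀ (d : ℕ)
    (F : Set (Set (EuclideanSpace ℝ (Fin d)))), mk F 2 ≤ (m : ℕ∞) →
    (∀ k : ℕ, 1 ≤ k → mkFrac F k ≤ ((C * k : ℕ) : ℕ∞)) ∧
    ∀ (P : Finset (EuclideanSpace ℝ (Fin d))) (w : EuclideanSpace ℝ (Fin d) → ℝ) (t : ℝ),
      (∀ p ∈ P, 0 ≤ w p) → 0 < t →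
      ∃ v : Finset (EuclideanSpace ℝ (Fin d)) → ℝ, (∀ T, 0 ≤ v T) ∧
        ∑ T ∈ P.powerset, v T = 1 ∧
        (∀ p ∈ P, t * ∑ T ∈ P.powerset, Set.indicator {T' | p ∈ T'} v T ≤ C * w p) ∧
        ∀ T ∈ P.powerset, v T ≠ 0 → ∀ S ∈ F, t ≤ ∑ p ∈ P, S.indicator w p →
          ∃ p ∈ T, p ∈ S := by
  classical
  intro m
  obtain ⟨C₀, hC₀, hw₀⟩ := weighted m
  obtain ⟨C, hC⟩ := exists_nat_ge (max C₀ 1)
  have hC1 : C₀ ≤ C := (le_max_left _ _).trans hC
  have hC2 : (1 : ℝ) ≤ C := (le_max_right _ _).trans hC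
  have hC3 : 1 ≤ C := by exact_mod_cast hC2
  refine ⟨C, hC3, ?_⟩
  intro d F hF
  have key : ∀ (P : Finset (EuclideanSpace ℝ (Fin d))) (w : EuclideanSpace ℝ (Fin d) → ℝ)
      (t : ℝ), (∀ p ∈ P, 0 ≤ w p) → 0 < t →
      ∃ v : Finset (EuclideanSpace ℝ (Fin d)) → ℝ, (∀ T, 0 ≤ v T) ∧
        ∑ T ∈ P.powerset, v T = 1 ∧
        (∀ p ∈ P, t * ∑ T ∈ P.powerset, Set.indicator {T' | p ∈ T'} v T ≤ C * w p) ∧
        ∀ T ∈ P.powerset, v T ≠ 0 → ∀ S ∈ F, t ≤ ∑ p ∈ P, S.indicator w p →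
          ∃ p ∈ T, p ∈ S := by
    intro P w t hw ht
    obtain ⟨v, hv0, hv1, hv2, hv3⟩ := hw₀ d F hF P w t hw ht
    refine ⟨v, hv0, hv1, ?_, hv3⟩
    intro p hp
    exact (hv2 p hp).trans (mul_le_mul_of_nonneg_right hC1 (hw p hp))
  refine ⟨?_, key⟩
  intro k hk
  refine sInf_le ⟨C * k, rfl, ?_⟩
  intro P
  have hCk : (0 : ℝ) < C * k := by
    have : (1 : ℝ) ≤ k := by exact_mod_cast hk
    positivity
  obtain ⟨v, hv0, hv1, hv2, hv3⟩ := key P (fun _ => 1) (C * k) (fun _ _ => zero_le_one) hCk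
  refine ⟨fun T => k * v T, fun T => mul_nonneg (Nat.cast_nonneg _) (hv0 T), ?_, ?_, ?_⟩
  · rw [← mul_sum, hv1, mul_one]
  · intro p hp
    have h1 := hv2 p hp
    have h2 : ∑ T ∈ P.powerset, Set.indicator {T' | p ∈ T'} (fun T => (k : ℝ) * v T) T
        = k * ∑ T ∈ P.powerset, Set.indicator {T' | p ∈ T'} v T := by
      rw [mul_sum]
      refine sum_congr rfl fun T _ => ?_
      simp only [Set.indicator_apply]
      split_ifs
      · rfl
      · rw [mul_zero]
    rw [h2]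
    have h3 : (0 : ℝ) < C := by linarith
    have h4 : (C : ℝ) * (k * ∑ T ∈ P.powerset, Set.indicator {T' | p ∈ T'} v T) ≤ C * 1 := by
      calc (C : ℝ) * (k * ∑ T ∈ P.powerset, Set.indicator {T' | p ∈ T'} v T)
          = C * k * ∑ T ∈ P.powerset, Set.indicator {T' | p ∈ T'} v T := by ring
        _ ≤ C * 1 := h1
    exact le_of_mul_le_mul_left h4 h3
  · intro T hT hvT S hS hcard
    have hvT' : v T ≠ 0 := by
      intro h
      apply hvT
      show (k : ℝ) * v T = 0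
      rw [h, mul_zero]
    refine hv3 T hT hvT' S hS ?_
    have h1 : ∑ p ∈ P, S.indicator (fun _ => (1 : ℝ)) p
        = (((P : Set (EuclideanSpace ℝ (Fin d))) ∩ S).ncard : ℝ) := by
      have h2 : (P : Set (EuclideanSpace ℝ (Fin d))) ∩ S
          = ((P.filter (fun p => p ∈ S) : Finset (EuclideanSpace ℝ (Fin d))) :
            Set (EuclideanSpace ℝ (Fin d))) := by
        ext p
        simp only [coe_filter, Set.mem_inter_iff, Set.mem_ofPred_eq, mem_coe]
      rw [h2, Set.ncard_coe_finset, card_filter, Nat.cast_sum]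
      refine sum_congr rfl fun p _ => ?_
      rw [Set.indicator_apply]
      split_ifs
      · simp
      · simp
    rw [h1]
    exact_mod_cast hcard

end Pool.Agent.Results.MP_08bd45_co.Fractional
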