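import Pool.Agent.Helper34.OP.Dyn

/-!
# Linear polychromatic thresholds for self-coverable families which have one-pass 2-colourings

If a self-coverable family has one-pass colourings with two colours, with a finite threshold, then
it has one-pass colourings with `k` colours and threshold `C k`, for all `k`.
-/

namespace Pool.Agent.Results.MP_08bd45_co.OnePass

open Finset

/-- `PolyAt F k t`: every finite point set `P` has a colouring with `k` colours in which every
member of `F` with at least `t` points of `P` contains points of `P` of all `k` colours. -/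
def PolyAt {d : ℕ} (F : Set (Set (EuclideanSpace ℝ (Fin d)))) (k t : ℕ) : Prop :=
  ∀ P : Finset (EuclideanSpace ℝ (Fin d)), ∃ c : EuclideanSpace ℝ (Fin d) → Fin k,
    ∀ S ∈ F, t ≤ ((P : Set (EuclideanSpace ℝ (Fin d))) ∩ S).ncard →
      ∀ i : Fin k, ∃ p ∈ P, p ∈ S ∧ c p = i

/-- `m_k(F)`: the least `t` with `PolyAt F k t`, and infinity if there is none. -/
noncomputable def mk {d : ℕ} (F : Set (Set (EuclideanSpace ℝ (Fin d)))) (k : ℕ) : ℕ∞ :=
  sInf {t : ℕ∞ | ∃ n : ℕ, t = (n : ℕ∞) ∧ PolyAt F k n}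

/-- Self-coverability with the function `f`, for point sets: for every member `S` of `F`, every
finite set `Q` of points of `S` and every finite set `R` of other points of `S` there are at most
`f |Q|` members of `F` which are subsets of `S`, contain no point of `Q` and cover `R`. -/
def SelfCov {d : ℕ} (F : Set (Set (EuclideanSpace ℝ (Fin d)))) (f : ℕ → ℕ) : Prop :=
  ∀ S ∈ F, ∀ Q R : Finset (EuclideanSpace ℝ (Fin d)), (∀ x ∈ Q, x ∈ S) →
    (∀ x ∈ R, x ∈ S ∧ x ∉ Q) → ∃ C : Finset (Set (EuclideanSpace ℝ (Fin d))), C.card ≤ f Q.card ∧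
      (∀ A ∈ C, A ∈ F ∧ A ⊆ S ∧ ∀ x ∈ Q, x ∉ A) ∧ ∀ x ∈ R, ∃ A ∈ C, x ∈ A

/-- `OnceAt F k t`: every finite point set `P` can be ordered (by a rank function `r`, injective on
`P`) so that there is a rule `φ` with values in the `k` colours with the following property. For
every `Z ⊆ P` colour the points of `Z` in this order, the point `p` getting the colour
`φ Y p`, where `Y` is the set of the earlier points of `Z`; then every member of `F` with at least
`t` points of `Z` contains points of `Z` of all `k` colours. -/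
def OnceAt {d : ℕ} (F : Set (Set (EuclideanSpace ℝ (Fin d)))) (k t : ℕ) : Prop :=
  ∀ P : Finset (EuclideanSpace ℝ (Fin d)), ∃ r : EuclideanSpace ℝ (Fin d) → ℕ,
    (∀ p ∈ P, ∀ q ∈ P, r p = r q → p = q) ∧
    ∃ φ : Finset (EuclideanSpace ℝ (Fin d)) → EuclideanSpace ℝ (Fin d) → Fin k,
      ∀ Z ⊆ P, ∀ S ∈ F, t ≤ ((Z : Set (EuclideanSpace ℝ (Fin d))) ∩ S).ncard →
        ∀ i : Fin k, ∃ p ∈ Z, p ∈ S ∧ φ (Z.filter (fun q => r q < r p)) p = i

theorem ncard_eq {d : ℕ} (Z : Finset (EuclideanSpace ℝ (Fin d)))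
    (S : Set (EuclideanSpace ℝ (Fin d))) :
    ((Z : Set (EuclideanSpace ℝ (Fin d))) ∩ S).ncard = Pool.Agent.Helper34.OP.cnt Z S := by
  classical
  have h : (Z : Set (EuclideanSpace ℝ (Fin d))) ∩ S
      = ((Z.filter (fun p => p ∈ S) : Finset (EuclideanSpace ℝ (Fin d))) :
        Set (EuclideanSpace ℝ (Fin d))) := by
    ext p
    simp only [coe_filter, Set.mem_inter_iff, Set.mem_ofPred_eq, mem_coe]
  rw [h, Set.ncard_coe_finset]
  unfold Pool.Agent.Helper34.OP.cnt
  congr 1

/-- Let `F` be a family of subsets of `ℝ^d` which is self-coverable with a monotone function `f` and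
has one-pass colourings with two colours and threshold `m ≥ 2`. Put
`C = 8 (m - 1) (f (8 (m - 1) f(1)) + 1)`. Then for every `k ≥ 1` the family has one-pass colourings
with `k` colours and threshold `C k`, and `m_k(F) ≤ C k`. -/
theorem result : ∀ (d : ℕ) (F : Set (Set (EuclideanSpace ℝ (Fin d)))) (f : ℕ → ℕ) (m : ℕ),
    SelfCov F f → Monotone f → 2 ≤ m → OnceAt F 2 m → ∀ k : ℕ, 1 ≤ k →
      OnceAt F k (8 * (m - 1) * (f (8 * (m - 1) * f 1) + 1) * k) ∧
      mk F k ≤ ((8 * (m - 1) * (f (8 * (m - 1) * f 1) + 1) * k : ℕ) : ℕ∞) := by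
  classical
  intro d F f m hF hf hm h2 k hk
  obtain ⟨u, rfl⟩ : ∃ u, m = u + 1 := ⟨m - 1, by omega⟩
  rw [Nat.add_sub_cancel]
  have hu : 1 ≤ u := by omega
  have hmain : OnceAt F k (8 * u * (f (8 * u * f 1) + 1) * k) := by
    intro P
    obtain ⟨r, hr, φ, hφ⟩ := h2 P
    have hrule : Pool.Agent.Helper34.OP.Rule F 2 (u + 1) P r φ := by
      intro Z hZ S hS hc i
      exact hφ Z hZ S hS (by rw [ncard_eq]; exact hc) i
    obtain ⟨Φ, hΦ⟩ := Pool.Agent.Helper34.OP.main (k := k) hF hf hu hk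
      (fun p hp q hq h => hr p (mem_coe.1 hp) q (mem_coe.1 hq) h) hrule
    refine ⟨r, hr, Φ, ?_⟩
    intro Z hZ S hS hc i
    have hN : 8 * k * u * (f (8 * u * f 1) + 1) = 8 * u * (f (8 * u * f 1) + 1) * k := by ring
    exact hΦ Z hZ S hS (by rw [hN, ← ncard_eq]; exact hc) i
  refine ⟨hmain, sInf_le ⟨_, rfl, ?_⟩⟩
  intro P
  obtain ⟨r, hr, Φ, hΦ⟩ := hmain P
  exact ⟨fun p => Φ (P.filter (fun q => r q < r p)) p, fun S hS hc i => hΦ P subset_rfl S hS hc i⟩

end Pool.Agent.Results.MP_08bd45_co.OnePass
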